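import Pool.Agent.N692.TP.Tel

/-! # Project TP, part PB (helper692): the Peierls–Bogoliubov inequality -/

set_option autoImplicit false
set_option linter.unusedSectionVars false

open scoped BigOperators ComplexConjugate Classical InnerProductSpace Matrix ComplexOrder

noncomputable section

namespace Pool.Agent.N692.TP

open Pool.Agent.N658.TP
open Pool.Agent.TH235.PP (ip normSq nr nr_sq nr_nonneg)

section pbsec

variable {n : Type} [Fintype n] [DecidableEq n]

/-- the quadratic form of a conjugated diagonal matrix -/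
lemma qf_diag (U : Matrix n n ℂ) (m : n → ℝ) (φ : n → ℂ) :
    qf (U * Matrix.diagonal (fun j => ((m j : ℝ) : ℂ)) * Uᴴ) φ =
      ∑ j, ‖(Uᴴ *ᵥ φ) j‖ ^ 2 * m j := by
  unfold qf
  rw [← Matrix.mulVec_mulVec, ← Matrix.mulVec_mulVec]
  have h1 : ip φ (U *ᵥ (Matrix.diagonal (fun j => ((m j : ℝ) : ℂ)) *ᵥ (Uᴴ *ᵥ φ))) =
      ip (Uᴴ *ᵥ φ) (Matrix.diagonal (fun j => ((m j : ℝ) : ℂ)) *ᵥ (Uᴴ *ᵥ φ)) := by
    rw [ip_adj, Matrix.conjTranspose_conjTranspose]
  rw [h1]
  unfold ip
  rw [Complex.re_sum]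
  refine Finset.sum_congr rfl fun j _ => ?_
  rw [Matrix.mulVec_diagonal, mul_comm ((m j : ℝ) : ℂ) ((Uᴴ *ᵥ φ) j), ← mul_assoc,
    ← Complex.normSq_eq_conj_mul_self, ← Complex.ofReal_mul, Complex.ofReal_re,
    Complex.normSq_eq_norm_sq]

end pbsec

/-- **G2** Peierls–Bogoliubov. -/
theorem pbMain : StmPB := by
  intro n _ _ X hX φ hφ
  set U : Matrix n n ℂ := (hX.eigenvectorUnitary : Matrix n n ℂ) with hU
  set m : n → ℝ := hX.eigenvalues with hm
  have hUU : Uᴴ * U = 1 := Unitary.coe_star_mul_self hX.eigenvectorUnitary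
  have hUU' : U * Uᴴ = 1 := Unitary.coe_mul_star_self hX.eigenvectorUnitary
  have hX1 : X = U * Matrix.diagonal (fun j => ((m j : ℝ) : ℂ)) * Uᴴ := hX.spectral_theorem
  have hinv : U⁻¹ = Uᴴ := Matrix.inv_eq_right_inv hUU'
  have hX2 : NormedSpace.exp X =
      U * Matrix.diagonal (fun j => ((Real.exp (m j) : ℝ) : ℂ)) * Uᴴ := by
    rw [hX1, ← hinv, Matrix.exp_conj _ _ (IsUnit.of_mul_eq_one _ hUU'), Matrix.exp_diagonal]
    congr 3
    funext j
    rw [Pi.coe_exp, Complex.ofReal_exp, Complex.exp_eq_exp_ℂ]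
  set p : n → ℝ := fun j => ‖(Uᴴ *ᵥ φ) j‖ ^ 2 with hp
  have hp0 : ∀ j, 0 ≤ p j := fun j => by positivity
  have hp1 : ∑ j, p j = 1 := by
    have h1 := qf_diag U (fun _ => 1) φ
    have h2 : Matrix.diagonal (fun _ : n => ((1 : ℝ) : ℂ)) = (1 : Matrix n n ℂ) := by
      rw [Complex.ofReal_one, Matrix.diagonal_one]
    rw [h2, mul_one, hUU'] at h1
    have h3 : qf (1 : Matrix n n ℂ) φ = 1 := by
      unfold qf
      rw [Matrix.one_mulVec, ip_self, hφ]
    rw [h3] at h1
    simpa using h1.symm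
  have e1 : qf X φ = ∑ j, p j * m j := by
    rw [hX1]
    exact qf_diag U m φ
  have e2 : qf (NormedSpace.exp X) φ = ∑ j, p j * Real.exp (m j) := by
    rw [hX2]
    exact qf_diag U (fun j => Real.exp (m j)) φ
  have e3 : (NormedSpace.exp X).trace.re = ∑ j, Real.exp (m j) := by
    rw [hX2, Matrix.trace_mul_comm, ← mul_assoc, hUU, one_mul, Matrix.trace_diagonal,
      Complex.re_sum]
    exact Finset.sum_congr rfl fun j _ => Complex.ofReal_re _
  rw [e1, e2, e3]
  constructor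
  · have h1 := convexOn_exp.map_sum_le (t := Finset.univ) (w := p) (p := m)
      (fun j _ => hp0 j) hp1 (fun j _ => Set.mem_univ _)
    simpa [smul_eq_mul] using h1
  · refine Finset.sum_le_sum fun j _ => ?_
    have h2 : p j ≤ 1 := by
      rw [← hp1]
      exact Finset.single_le_sum (fun i _ => hp0 i) (Finset.mem_univ j)
    exact mul_le_of_le_one_left (Real.exp_pos _).le h2

end Pool.Agent.N692.TP
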