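import Pool.Agent.N658.TP.Stm2
import Pool.Agent.TH235.PP.Therm

/-! # Project TP, part Tel (helper692): the telescoping energy estimate -/

set_option autoImplicit false
set_option linter.unusedSectionVars false

open scoped BigOperators ComplexConjugate Classical InnerProductSpace Matrix ComplexOrder
open scoped Matrix.Norms.L2Operator

noncomputable section

namespace Pool.Agent.N692.TP

open Pool.Agent.N658.TP
open Pool.Agent.TH235.PP (ip normSq nr nr_sq nr_nonneg nr_add nr_smul nr_mulVec ip_eq ip_symm_herm ip_le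
  ip_smul_left ip_smul_right)

section vec

variable {n : Type} [Fintype n] [DecidableEq n]

lemma ip_dot (u v : n → ℂ) : ip u v = star u ⬝ᵥ v := rfl

lemma ip_adj (A : Matrix n n ℂ) (u v : n → ℂ) : ip (A *ᵥ u) v = ip u (Aᴴ *ᵥ v) := by
  rw [ip_dot, ip_dot, Matrix.star_mulVec, Matrix.dotProduct_mulVec]

lemma ip_self (u : n → ℂ) : (ip u u).re = nsq u := by
  unfold ip nsq normSq
  rw [Complex.re_sum]
  refine Finset.sum_congr rfl fun s _ => ?_
  rw [← Complex.normSq_eq_conj_mul_self, Complex.ofReal_re, Complex.normSq_eq_norm_sq]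

lemma qf_adj (A : Matrix n n ℂ) (u : n → ℂ) : qf (Aᴴ * A) u = nsq (A *ᵥ u) := by
  unfold qf
  rw [← Matrix.mulVec_mulVec, ← ip_adj, ip_self]

lemma nsq_nonneg (u : n → ℂ) : 0 ≤ nsq u := by
  rw [nsq, ← nr_sq]
  positivity

lemma nsq_smul (c : ℝ) (u : n → ℂ) : nsq ((c : ℂ) • u) = c ^ 2 * nsq u := by
  rw [nsq, nsq, ← nr_sq, ← nr_sq, nr_smul, mul_pow, Complex.norm_real, Real.norm_eq_abs, sq_abs]

lemma qf_smul (A : Matrix n n ℂ) (c : ℝ) (u : n → ℂ) : qf A ((c : ℂ) • u) = c ^ 2 * qf A u := by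
  unfold qf
  rw [Matrix.mulVec_smul, ip_smul_left, ip_smul_right, Complex.conj_ofReal, ← mul_assoc]
  have e : (c : ℂ) * (c : ℂ) = ((c ^ 2 : ℝ) : ℂ) := by push_cast; ring
  rw [e, Complex.re_ofReal_mul]

lemma qf_real_smul (A : Matrix n n ℂ) (c : ℝ) (u : n → ℂ) : qf ((c : ℂ) • A) u = c * qf A u := by
  unfold qf
  rw [Matrix.smul_mulVec, ip_smul_right, Complex.re_ofReal_mul]

lemma qf_add (A B : Matrix n n ℂ) (u : n → ℂ) : qf (A + B) u = qf A u + qf B u := by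
  unfold qf
  rw [Matrix.add_mulVec, ip_dot, dotProduct_add, Complex.add_re]
  rfl

lemma qf_neg (A : Matrix n n ℂ) (u : n → ℂ) : qf (-A) u = -qf A u := by
  have h := qf_real_smul A (-1) u
  have e : (((-1 : ℝ)) : ℂ) • A = -A := by
    push_cast
    rw [neg_smul, one_smul]
  rw [e] at h
  rw [h]
  ring

/-- Peierls–Bogoliubov for a vector which is not normalised -/
lemma pb (h2 : StmPB) (X : Matrix n n ℂ) (hX : X.IsHermitian) (v : n → ℂ) (hv : 0 < nsq v) :
    nsq v * Real.exp (qf X v / nsq v) ≤ qf (NormedSpace.exp X) v := by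
  set c : ℝ := (Real.sqrt (nsq v))⁻¹ with hc
  have hs : 0 < Real.sqrt (nsq v) := Real.sqrt_pos.2 hv
  have hc2 : c ^ 2 = (nsq v)⁻¹ := by
    rw [hc, inv_pow, Real.sq_sqrt hv.le]
  have h1 := (h2 n X hX ((c : ℂ) • v) (by rw [nsq_smul, hc2, inv_mul_cancel₀ hv.ne'])).1
  rw [qf_smul, qf_smul, hc2] at h1
  have e : (nsq v)⁻¹ * qf X v = qf X v / nsq v := by rw [div_eq_inv_mul]
  rw [e] at h1
  have h3 := mul_le_mul_of_nonneg_left h1 hv.le
  rw [← mul_assoc, mul_inv_cancel₀ hv.ne', one_mul] at h3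
  exact h3

lemma herm_smul {H : Matrix n n ℂ} (hH : H.IsHermitian) (c : ℝ) : ((c : ℂ) • H).IsHermitian := by
  rw [Matrix.IsHermitian, Matrix.conjTranspose_smul, hH.eq]
  congr 1
  simp

lemma exp_mul_neg (A : Matrix n n ℂ) : NormedSpace.exp A * NormedSpace.exp (-A) = 1 := by
  rw [← Matrix.exp_add_of_commute _ _ (Commute.refl A).neg_right, add_neg_cancel, NormedSpace.exp_zero]

lemma exp_sq (A : Matrix n n ℂ) : NormedSpace.exp A * NormedSpace.exp A = NormedSpace.exp ((2 : ℂ) • A) := by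
  rw [← Matrix.exp_add_of_commute _ _ (Commute.refl A), two_smul]

/-- the norm of the exponential applied to a vector -/
lemma nsq_exp {X : Matrix n n ℂ} (hX : X.IsHermitian) (v : n → ℂ) :
    nsq (NormedSpace.exp X *ᵥ v) = qf (NormedSpace.exp ((2 : ℂ) • X)) v := by
  rw [← qf_adj, hX.exp.eq, exp_sq]

lemma trace_vec (A : Matrix n n ℂ) (v : n → ℂ) :
    (Matrix.vecMulVec v (star v) * A).trace = ip v (A *ᵥ v) := by
  rw [Matrix.vecMulVec_mul, Matrix.trace_vecMulVec, dotProduct_comm, ← Matrix.dotProduct_mulVec, ip_dot]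

end vec

lemma log_bound {δ : ℝ} (h0 : 0 ≤ δ) (h1 : δ ≤ 1 / 2) :
    Real.log (1 + δ) - Real.log (1 - δ) ≤ 3 * δ := by
  have h2 := Real.log_le_sub_one_of_pos (show 0 < 1 + δ by linarith)
  have h3 : -Real.log (1 - δ) ≤ 2 * δ := by
    rw [← Real.log_inv]
    have h4 : 0 < 1 - δ := by linarith
    have h5 := Real.log_le_sub_one_of_pos (inv_pos.2 h4)
    refine h5.trans ?_
    rw [sub_le_iff_le_add, inv_le_iff_one_le_mul₀ h4]
    nlinarith
  linarith

/-- **G4** -/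
theorem tel (h1 : StmGT) (h2 : StmPB) (h3 : StmLog) : StmTel := by
  intro n _ _ H T Γ τ δ J ι _ q e hH hΓ hτ hδ0 hδ1 hJ hD hq hexp htr Φ hΦ
  set M : ℝ := qf H Φ + (-qf Γ Φ) / (4 * J * τ) + 4 * δ / τ with hM
  by_contra hcon
  push Not at hcon
  set S : Matrix n n ℂ := Tᴴ * T with hS
  have hSH : S.IsHermitian := Matrix.isHermitian_conjTranspose_mul_self T
  have hτH : ((τ : ℂ) • H).IsHermitian := herm_smul hH τ
  set D : Matrix n n ℂ := T * NormedSpace.exp ((τ : ℂ) • H) - 1 with hDdef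
  -- the operator `T`
  have hT : T = (1 + D) * NormedSpace.exp (-((τ : ℂ) • H)) := by
    rw [hDdef, add_sub_cancel, mul_assoc, exp_mul_neg, mul_one]
  -- (α)
  have hα : ∀ v : n → ℂ, (1 - δ) ^ 2 * qf (NormedSpace.exp (-(((2 * τ : ℝ) : ℂ) • H))) v ≤ qf S v := by
    intro v
    rw [hS, qf_adj]
    have hn : (-((τ : ℂ) • H)).IsHermitian := hτH.neg
    have e1 : qf (NormedSpace.exp (-(((2 * τ : ℝ) : ℂ) • H))) v =
        nsq (NormedSpace.exp (-((τ : ℂ) • H)) *ᵥ v) := by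
      rw [nsq_exp hn]
      congr 2
      rw [smul_neg, smul_smul]
      push_cast
      rfl
    rw [e1]
    set w := NormedSpace.exp (-((τ : ℂ) • H)) *ᵥ v with hw
    have e2 : T *ᵥ v = w + D *ᵥ w := by
      conv_lhs => rw [hT]
      rw [← Matrix.mulVec_mulVec, ← hw, Matrix.add_mulVec, Matrix.one_mulVec]
    rw [e2, nsq, nsq, ← nr_sq, ← nr_sq, ← mul_pow]
    have h4 : nr w ≤ nr (w + D *ᵥ w) + nr (D *ᵥ w) := by
      have h5 := nr_add (w + D *ᵥ w) ((-1 : ℂ) • (D *ᵥ w))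
      rw [nr_smul] at h5
      have e3 : w + D *ᵥ w + (-1 : ℂ) • (D *ᵥ w) = w := by
        rw [neg_one_smul]
        abel
      rw [e3] at h5
      simpa using h5
    have h5 : nr (D *ᵥ w) ≤ δ * nr w :=
      (nr_mulVec D w).trans (mul_le_mul_of_nonneg_right hD (nr_nonneg _))
    refine pow_le_pow_left₀ (mul_nonneg (by linarith) (nr_nonneg _)) ?_ 2
    linarith
  -- (β)
  have hβ : ∀ u : n → ℂ, nsq (NormedSpace.exp ((τ : ℂ) • H) *ᵥ (S *ᵥ u)) ≤ (1 + δ) ^ 2 * nsq (T *ᵥ u) := by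
    intro u
    have e1 : NormedSpace.exp ((τ : ℂ) • H) *ᵥ (S *ᵥ u) = T *ᵥ u + Dᴴ *ᵥ (T *ᵥ u) := by
      have e2 : NormedSpace.exp ((τ : ℂ) • H) * Tᴴ = 1 + Dᴴ := by
        rw [hDdef, Matrix.conjTranspose_sub, Matrix.conjTranspose_mul, Matrix.conjTranspose_one,
          hτH.exp.eq, add_sub_cancel]
      rw [hS, Matrix.mulVec_mulVec, ← mul_assoc, e2, ← Matrix.mulVec_mulVec, Matrix.add_mulVec,
        Matrix.one_mulVec]
    rw [e1, nsq, nsq, ← nr_sq, ← nr_sq, ← mul_pow]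
    refine pow_le_pow_left₀ (nr_nonneg _) ?_ 2
    have h5 : nr (Dᴴ *ᵥ (T *ᵥ u)) ≤ δ * nr (T *ᵥ u) := by
      refine (nr_mulVec _ _).trans (mul_le_mul_of_nonneg_right ?_ (nr_nonneg _))
      rw [Matrix.l2_opNorm_conjTranspose]
      exact hD
    have h6 := nr_add (T *ᵥ u) (Dᴴ *ᵥ (T *ᵥ u))
    linarith
  -- (γ) one step
  set a : ℝ := Real.exp (2 * τ * M) / (1 + δ) ^ 2 with ha
  have ha0 : 0 < a := by positivity
  have hstep : ∀ u : n → ℂ, 0 < nsq (S *ᵥ u) → M * nsq (S *ᵥ u) < qf H (S *ᵥ u) →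
      a ^ 2 * nsq (S *ᵥ u) < nsq u := by
    intro u hv hE
    set v := S *ᵥ u with hvdef
    have h5 : nsq v * Real.exp (2 * τ * M) < nsq (NormedSpace.exp ((τ : ℂ) • H) *ᵥ v) := by
      rw [nsq_exp hτH, smul_smul]
      have hX : (((2 * τ : ℝ) : ℂ) • H).IsHermitian := herm_smul hH (2 * τ)
      have h6 := pb h2 _ hX v hv
      rw [qf_real_smul] at h6
      have e3 : (((2 * τ : ℝ) : ℂ)) = (2 : ℂ) * (τ : ℂ) := by push_cast; rfl
      rw [e3] at h6
      refine lt_of_lt_of_le (mul_lt_mul_of_pos_left ?_ hv) h6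
      apply Real.exp_lt_exp.2
      rw [lt_div_iff₀ hv]
      have h7 : 0 < 2 * τ := by linarith
      nlinarith
    have h6 : nsq v * Real.exp (2 * τ * M) < (1 + δ) ^ 2 * nsq (T *ᵥ u) := lt_of_lt_of_le h5 (hβ u)
    have h7 : a * nsq v < nsq (T *ᵥ u) := by
      rw [ha, div_mul_eq_mul_div, div_lt_iff₀ (by positivity)]
      linarith
    have h8 : nsq (T *ᵥ u) ^ 2 ≤ nsq u * nsq v := by
      have h9 : nsq (T *ᵥ u) ≤ nr u * nr v := by
        rw [← qf_adj]
        unfold qf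
        exact (Complex.re_le_norm _).trans (ip_le u (S *ᵥ u))
      calc nsq (T *ᵥ u) ^ 2 ≤ (nr u * nr v) ^ 2 := pow_le_pow_left₀ (nsq_nonneg _) h9 2
        _ = nsq u * nsq v := by rw [mul_pow, nr_sq, nr_sq]
    have h9 : (a * nsq v) ^ 2 < nsq u * nsq v :=
      lt_of_lt_of_le (pow_lt_pow_left₀ h7 (by positivity) (by norm_num)) h8
    have h10 : (a ^ 2 * nsq v) * nsq v < nsq u * nsq v := by
      refine lt_of_le_of_lt (le_of_eq ?_) h9
      ring
    exact lt_of_mul_lt_mul_right h10 hv.le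
  -- (ε) all the steps
  have hpow : ∀ j : ℕ, j ≤ J → ∀ s : ι, (a ^ 2) ^ j * nsq (S ^ j *ᵥ e s) ≤ nsq (e s) ∧
      (1 ≤ j → 0 < nsq (S ^ j *ᵥ e s) → (a ^ 2) ^ j * nsq (S ^ j *ᵥ e s) < nsq (e s)) := by
    intro j
    induction j with
    | zero =>
      intro _ s
      refine ⟨?_, fun h => absurd h (by norm_num)⟩
      rw [pow_zero, pow_zero, one_mul, Matrix.one_mulVec]
    | succ j ih =>
      intro hj s
      obtain ⟨ih1, -⟩ := ih (by omega) s
      have e1 : S ^ (j + 1) *ᵥ e s = S *ᵥ (S ^ j *ᵥ e s) := by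
        rw [Matrix.mulVec_mulVec, ← pow_succ']
      have key : 0 < nsq (S ^ (j + 1) *ᵥ e s) →
          (a ^ 2) ^ (j + 1) * nsq (S ^ (j + 1) *ᵥ e s) < nsq (e s) := by
        intro hpos
        have h5 := hcon (j + 1) hj s hpos
        rw [e1] at hpos h5 ⊢
        have h6 := hstep (S ^ j *ᵥ e s) hpos h5
        have h7 : 0 < (a ^ 2) ^ j := by positivity
        calc (a ^ 2) ^ (j + 1) * nsq (S *ᵥ (S ^ j *ᵥ e s))
            = (a ^ 2) ^ j * (a ^ 2 * nsq (S *ᵥ (S ^ j *ᵥ e s))) := by ring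
          _ < (a ^ 2) ^ j * nsq (S ^ j *ᵥ e s) := mul_lt_mul_of_pos_left h6 h7
          _ ≤ nsq (e s) := ih1
      refine ⟨?_, fun _ => key⟩
      rcases (nsq_nonneg (S ^ (j + 1) *ᵥ e s)).eq_or_lt with h0 | h0
      · rw [← h0, mul_zero]
        exact nsq_nonneg _
      · exact (key h0).le
  -- the traces
  have hZ : ∀ j : ℕ, ∑ s, q s * nsq (S ^ j *ᵥ e s) = (NormedSpace.exp Γ * (S ^ j * S ^ j)).trace.re := by
    intro j
    rw [hexp, Finset.sum_mul, Matrix.trace_sum, Complex.re_sum]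
    refine Finset.sum_congr rfl fun s _ => ?_
    rw [Matrix.smul_mul, Matrix.trace_smul, smul_eq_mul, Complex.re_ofReal_mul, trace_vec]
    congr 1
    have h5 : (S ^ j).IsHermitian := hSH.pow j
    have h6 := qf_adj (S ^ j) (e s)
    rw [h5.eq] at h6
    exact h6.symm
  have hZ0 : ∑ s, q s * nsq (e s) = 1 := by
    have h5 := hZ 0
    simp only [pow_zero, Matrix.one_mulVec, mul_one] at h5
    rw [h5, htr, Complex.one_re]
  -- the lower bound for the last trace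
  obtain ⟨Λ, hΛ, hΛe, hΛq⟩ := h3 n S (((2 * τ : ℝ) : ℂ) • H) hSH (herm_smul hH _) ((1 - δ) ^ 2)
    (by have : 0 < 1 - δ := by linarith
        positivity) hα
  have hlow : Real.exp (qf Γ Φ + 2 * J * (2 * Real.log (1 - δ) - 2 * τ * qf H Φ)) ≤
      ∑ s, q s * nsq (S ^ J *ᵥ e s) := by
    rw [hZ J]
    have e1 : S ^ J * S ^ J = NormedSpace.exp (((2 * J : ℝ) : ℂ) • Λ) := by
      have e2 : (((2 * J : ℝ) : ℂ) • Λ) = (J + J : ℕ) • Λ := by
        rw [← Nat.cast_smul_eq_nsmul ℂ]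
        congr 1
        push_cast
        ring
      rw [e2, Matrix.exp_nsmul, hΛe, pow_add]
    rw [e1]
    have hL : (((2 * J : ℝ) : ℂ) • Λ).IsHermitian := herm_smul hΛ _
    refine le_trans ?_ (h1 n Γ _ hΓ hL)
    obtain ⟨p1, p2⟩ := h2 n (Γ + ((2 * J : ℝ) : ℂ) • Λ) (hΓ.add hL) Φ hΦ
    refine le_trans ?_ (p1.trans p2)
    apply Real.exp_le_exp.2
    rw [qf_add, qf_real_smul]
    have h5 := hΛq Φ hΦ
    rw [qf_real_smul, Real.log_pow] at h5
    have h6 : (0 : ℝ) ≤ 2 * J := by positivity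
    have h7 := mul_le_mul_of_nonneg_left h5 h6
    push_cast at h7
    linarith
  -- the contradiction
  have hZpos : 0 < ∑ s, q s * nsq (S ^ J *ᵥ e s) := lt_of_lt_of_le (Real.exp_pos _) hlow
  have hlt : (a ^ 2) ^ J * ∑ s, q s * nsq (S ^ J *ᵥ e s) < 1 := by
    rw [← hZ0, Finset.mul_sum]
    obtain ⟨s, -, hs⟩ := Finset.exists_lt_of_sum_lt (s := Finset.univ) (f := fun _ : ι => (0 : ℝ))
      (g := fun s => q s * nsq (S ^ J *ᵥ e s)) (by simpa using hZpos)
    have hs' : 0 < q s * nsq (S ^ J *ᵥ e s) := hs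
    have hq0 : 0 < q s := by
      rcases (hq s).eq_or_lt with h | h
      · rw [← h, zero_mul] at hs'
        exact absurd hs' (lt_irrefl _)
      · exact h
    have hn0 : 0 < nsq (S ^ J *ᵥ e s) := pos_of_mul_pos_right hs' hq0.le |> fun h => h
    refine Finset.sum_lt_sum (fun i _ => ?_) ⟨s, Finset.mem_univ _, ?_⟩
    · have h5 := mul_le_mul_of_nonneg_left (hpow J le_rfl i).1 (hq i)
      refine le_trans (le_of_eq ?_) h5
      ring
    · have h5 := mul_lt_mul_of_pos_left ((hpow J le_rfl s).2 hJ hn0) hq0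
      refine lt_of_le_of_lt (le_of_eq ?_) h5
      ring
  have hδp : 0 < 1 + δ := by linarith
  have haJ : (a ^ 2) ^ J = Real.exp (4 * τ * J * M - 4 * J * Real.log (1 + δ)) := by
    have e1 : a = Real.exp (2 * τ * M - 2 * Real.log (1 + δ)) := by
      rw [ha, Real.exp_sub]
      congr 1
      have e2 : 2 * Real.log (1 + δ) = ((2 : ℕ) : ℝ) * Real.log (1 + δ) := by push_cast; ring
      rw [e2, Real.exp_nat_mul, Real.exp_log hδp]
    rw [e1, ← pow_mul, ← Real.exp_nat_mul]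
    congr 1
    push_cast
    ring
  have hfin : Real.exp (4 * τ * J * M - 4 * J * Real.log (1 + δ)) *
      Real.exp (qf Γ Φ + 2 * J * (2 * Real.log (1 - δ) - 2 * τ * qf H Φ)) < 1 := by
    rw [← haJ]
    exact lt_of_le_of_lt (mul_le_mul_of_nonneg_left hlow (by positivity)) hlt
  rw [← Real.exp_add, Real.exp_lt_one_iff] at hfin
  have hJ0 : (0 : ℝ) < J := by exact_mod_cast hJ
  have eM : 4 * τ * J * M = 4 * τ * J * qf H Φ - qf Γ Φ + 16 * J * δ := by
    rw [hM]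
    field_simp
    ring
  rw [eM] at hfin
  have hlog := log_bound hδ0 hδ1
  have h5 := mul_le_mul_of_nonneg_left hlog (by positivity : (0 : ℝ) ≤ 4 * J)
  have h6 : 0 ≤ 4 * (J : ℝ) * δ := by positivity
  nlinarith

end Pool.Agent.N692.TP
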